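import Pool.Agent.H93.SG.Stm

/-! # Project SG, stub ALG (helper44) -/

set_option autoImplicit false

namespace Pool.Agent.H93.SG

namespace ALGaux

theorem scale (W p1 p2 x1 x2 y1 y2 : ℝ)
    (h : W * (x1 * y1 + x2 * y2) ^ 2 ≤ (x1 ^ 2 + x2 ^ 2) * (p1 * y1 + p2 * y2) ^ 2) :
    W * ((p1 * x1 + p2 * x2) * (p1 * y1 + p2 * y2) + (p1 * x2 - p2 * x1) * (p1 * y2 - p2 * y1)) ^ 2 ≤
      (p1 ^ 2 + p2 ^ 2) * ((p1 * x1 + p2 * x2) ^ 2 + (p1 * x2 - p2 * x1) ^ 2) *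
        (p1 * y1 + p2 * y2) ^ 2 := by
  have e1 : (p1 * x1 + p2 * x2) * (p1 * y1 + p2 * y2) + (p1 * x2 - p2 * x1) * (p1 * y2 - p2 * y1) =
      (p1 ^ 2 + p2 ^ 2) * (x1 * y1 + x2 * y2) := by ring
  have e2 : (p1 * x1 + p2 * x2) ^ 2 + (p1 * x2 - p2 * x1) ^ 2 =
      (p1 ^ 2 + p2 ^ 2) * (x1 ^ 2 + x2 ^ 2) := by ring
  rw [e1, e2]
  have h1 := mul_le_mul_of_nonneg_left h (sq_nonneg (p1 ^ 2 + p2 ^ 2))
  linarith

theorem core (r W A1 A2 B1 B2 C1 C2 : ℝ) (hr : 0 < r) (hrW : r < W)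
    (hpos : 0 ≤ A1 * B1 * (A2 * B2)) (hab : A1 * B2 - A2 * B1 ≠ 0)
    (hac : A1 * C2 - A2 * C1 ≠ 0) (hbc : B1 * C2 - B2 * C1 ≠ 0)
    (h1 : W * (A1 * B1 + A2 * B2) ^ 2 ≤ r * (A1 ^ 2 + A2 ^ 2) * B1 ^ 2)
    (h2 : W * (A1 * B1 + A2 * B2) ^ 2 ≤ r * (B1 ^ 2 + B2 ^ 2) * A1 ^ 2)
    (h3 : W * (A1 * C1 + A2 * C2) ^ 2 ≤ r * (C1 ^ 2 + C2 ^ 2) * A1 ^ 2)
    (h4 : W * (B1 * C1 + B2 * C2) ^ 2 ≤ r * (C1 ^ 2 + C2 ^ 2) * B1 ^ 2) : False := by
  have hW : 0 < W := hr.trans hrW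
  obtain ⟨X, hX⟩ : ∃ X, X = A1 * B1 := ⟨_, rfl⟩
  obtain ⟨Y, hY⟩ : ∃ Y, Y = A2 * B2 := ⟨_, rfl⟩
  obtain ⟨U, hU⟩ : ∃ U, U = A2 * B1 := ⟨_, rfl⟩
  obtain ⟨Z, hZ⟩ : ∃ Z, Z = A1 * B2 := ⟨_, rfl⟩
  have hUZ : U * Z = X * Y := by rw [hU, hZ, hX, hY]; ring
  have hXY : 0 ≤ X * Y := by rw [hX, hY]; exact hpos
  have k1 : W * (X + Y) ^ 2 ≤ r * (X ^ 2 + U ^ 2) := by
    rw [hX, hY, hU]
    linarith
  have k2 : W * (X + Y) ^ 2 ≤ r * (X ^ 2 + Z ^ 2) := by
    rw [hX, hY, hZ]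
    linarith
  -- `min (U², Z²) ≤ X Y`
  have k3 : W * (X + Y) ^ 2 ≤ r * (X ^ 2 + X * Y) := by
    rcases le_total (U ^ 2) (Z ^ 2) with h | h
    · have h5 : |U| ≤ |Z| := sq_le_sq.1 h
      have h6 : U ^ 2 ≤ X * Y := by
        calc U ^ 2 = |U| * |U| := by rw [← sq, sq_abs]
          _ ≤ |U| * |Z| := mul_le_mul_of_nonneg_left h5 (abs_nonneg _)
          _ = |X * Y| := by rw [← abs_mul, hUZ]
          _ = X * Y := abs_of_nonneg hXY
      have := mul_le_mul_of_nonneg_left h6 hr.le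
      linarith
    · have h5 : |Z| ≤ |U| := sq_le_sq.1 h
      have h6 : Z ^ 2 ≤ X * Y := by
        calc Z ^ 2 = |Z| * |Z| := by rw [← sq, sq_abs]
          _ ≤ |U| * |Z| := mul_le_mul_of_nonneg_right h5 (abs_nonneg _)
          _ = |X * Y| := by rw [← abs_mul, hUZ]
          _ = X * Y := abs_of_nonneg hXY
      have := mul_le_mul_of_nonneg_left h6 hr.le
      linarith
  have k4 : r * (X ^ 2 + X * Y) ≤ r * (X + Y) ^ 2 := by
    apply mul_le_mul_of_nonneg_left _ hr.le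
    nlinarith [sq_nonneg Y]
  have k5 : (X + Y) ^ 2 = 0 := by
    have h5 : (W - r) * (X + Y) ^ 2 ≤ 0 := by linarith
    have h6 : 0 < W - r := by linarith
    have h7 := sq_nonneg (X + Y)
    by_contra hne
    have h8 : 0 < (X + Y) ^ 2 := lt_of_le_of_ne h7 (Ne.symm hne)
    have := mul_pos h6 h8
    linarith
  have k6 : X + Y = 0 := pow_eq_zero_iff (two_ne_zero) |>.1 k5
  have k7 : X = 0 := by
    have h5 : Y = -X := by linarith
    rw [h5] at hXY
    have h6 : X ^ 2 ≤ 0 := by nlinarith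
    exact pow_eq_zero_iff (two_ne_zero) |>.1 (le_antisymm h6 (sq_nonneg X))
  have k8 : Y = 0 := by linarith
  rw [hX] at k7
  rw [hY] at k8
  rcases mul_eq_zero.1 k7 with hA | hB
  · -- `A1 = 0`
    rw [hA] at hab h3 hac
    have hA2 : A2 ≠ 0 := by
      rintro rfl
      apply hab
      ring
    have hB2 : B2 = 0 := by
      rcases mul_eq_zero.1 k8 with h | h
      · exact absurd h hA2
      · exact h
    have h5 : (A2 * C2) ^ 2 ≤ 0 := by
      have h6 : W * (A2 * C2) ^ 2 ≤ 0 := by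
        have e : (0 * C1 + A2 * C2 : ℝ) = A2 * C2 := by ring
        rw [e] at h3
        linarith
      by_contra hne
      push Not at hne
      have := mul_pos hW hne
      linarith
    have h6 : A2 * C2 = 0 := pow_eq_zero_iff (two_ne_zero) |>.1 (le_antisymm h5 (sq_nonneg _))
    have hC2 : C2 = 0 := by
      rcases mul_eq_zero.1 h6 with h | h
      · exact absurd h hA2
      · exact h
    apply hbc
    rw [hB2, hC2]
    ring
  · rw [hB] at hab h4 hbc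
    have hB2 : B2 ≠ 0 := by
      rintro rfl
      apply hab
      ring
    have hA2 : A2 = 0 := by
      rcases mul_eq_zero.1 k8 with h | h
      · exact h
      · exact absurd h hB2
    have h5 : (B2 * C2) ^ 2 ≤ 0 := by
      have h6 : W * (B2 * C2) ^ 2 ≤ 0 := by
        have e : (0 * C1 + B2 * C2 : ℝ) = B2 * C2 := by ring
        rw [e] at h4
        linarith
      by_contra hne
      push Not at hne
      have := mul_pos hW hne
      linarith
    have h6 : B2 * C2 = 0 := pow_eq_zero_iff (two_ne_zero) |>.1 (le_antisymm h5 (sq_nonneg _))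
    have hC2 : C2 = 0 := by
      rcases mul_eq_zero.1 h6 with h | h
      · exact absurd h hB2
      · exact h
    apply hac
    rw [hA2, hC2]
    ring

end ALGaux

open ALGaux in
theorem alg_sound : S_ALG := by
  intro W p1 p2 a1 a2 b1 b2 c1 c2 hW hab hac hbc i1 i2 i3 i4 i5 i6
  by_cases hp : p1 ^ 2 + p2 ^ 2 = 0
  · have hp1 : p1 = 0 := by
      have h := sq_nonneg p1
      have h' := sq_nonneg p2
      exact pow_eq_zero_iff (two_ne_zero) |>.1 (by linarith)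
    have hp2 : p2 = 0 := by
      have h := sq_nonneg p1
      have h' := sq_nonneg p2
      exact pow_eq_zero_iff (two_ne_zero) |>.1 (by linarith)
    rw [hp] at hW
    subst hp1 hp2
    have z : ∀ x : ℝ, W * x ^ 2 ≤ 0 → x = 0 := by
      intro x hx
      by_contra hne
      have h := mul_pos hW (pow_pos (abs_pos.2 hne) 2)
      rw [sq_abs] at h
      linarith
    have e1 : a1 * b1 + a2 * b2 = 0 := z _ (i1.trans (le_of_eq (by ring)))
    have e2 : a1 * c1 + a2 * c2 = 0 := z _ (i3.trans (le_of_eq (by ring)))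
    have f1 : a1 * (b1 * c2 - b2 * c1) = 0 := by linear_combination c2 * e1 - b2 * e2
    have f2 : a2 * (b1 * c2 - b2 * c1) = 0 := by linear_combination -c1 * e1 + b1 * e2
    have g1 : a1 = 0 := (mul_eq_zero.1 f1).resolve_right hbc
    have g2 : a2 = 0 := (mul_eq_zero.1 f2).resolve_right hbc
    apply hab
    rw [g1, g2]
    ring
  · have hr : 0 < p1 ^ 2 + p2 ^ 2 := lt_of_le_of_ne (by positivity) (Ne.symm hp)
    have s : ∀ x1 x2 y1 y2 : ℝ, W * (x1 * y1 + x2 * y2) ^ 2 ≤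
        (y1 ^ 2 + y2 ^ 2) * (p1 * x1 + p2 * x2) ^ 2 →
        W * (y1 * x1 + y2 * x2) ^ 2 ≤ (y1 ^ 2 + y2 ^ 2) * (p1 * x1 + p2 * x2) ^ 2 := by
      intro x1 x2 y1 y2 h
      have e : y1 * x1 + y2 * x2 = x1 * y1 + x2 * y2 := by ring
      rw [e]
      exact h
    have j1 := scale W p1 p2 a1 a2 b1 b2 i1
    have j2 := scale W p1 p2 b1 b2 a1 a2 (s _ _ _ _ i2)
    have j3 := scale W p1 p2 a1 a2 c1 c2 i3
    have j4 := scale W p1 p2 c1 c2 a1 a2 (s _ _ _ _ i4)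
    have j5 := scale W p1 p2 b1 b2 c1 c2 i5
    have j6 := scale W p1 p2 c1 c2 b1 b2 (s _ _ _ _ i6)
    have par : ∀ x1 x2 y1 y2 : ℝ, x1 * y2 - x2 * y1 ≠ 0 →
        (p1 * x1 + p2 * x2) * (p1 * y2 - p2 * y1) - (p1 * x2 - p2 * x1) * (p1 * y1 + p2 * y2) ≠ 0 := by
      intro x1 x2 y1 y2 h
      have e : (p1 * x1 + p2 * x2) * (p1 * y2 - p2 * y1) -
          (p1 * x2 - p2 * x1) * (p1 * y1 + p2 * y2) = (p1 ^ 2 + p2 ^ 2) * (x1 * y2 - x2 * y1) := by
        ring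
      rw [e]
      exact mul_ne_zero hr.ne' h
    have qab := par a1 a2 b1 b2 hab
    have qac := par a1 a2 c1 c2 hac
    have qbc := par b1 b2 c1 c2 hbc
    generalize p1 * a1 + p2 * a2 = A1 at *
    generalize p1 * a2 - p2 * a1 = A2 at *
    generalize p1 * b1 + p2 * b2 = B1 at *
    generalize p1 * b2 - p2 * b1 = B2 at *
    generalize p1 * c1 + p2 * c2 = C1 at *
    generalize p1 * c2 - p2 * c1 = C2 at *
    have cm : ∀ {X1 X2 Y1 Y2 t : ℝ}, W * (X1 * Y1 + X2 * Y2) ^ 2 ≤ t →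
        W * (Y1 * X1 + Y2 * X2) ^ 2 ≤ t := by
      intro X1 X2 Y1 Y2 t h
      have e : Y1 * X1 + Y2 * X2 = X1 * Y1 + X2 * Y2 := by ring
      rw [e]
      exact h
    have ng : ∀ {X1 X2 Y1 Y2 : ℝ}, X1 * Y2 - X2 * Y1 ≠ 0 → Y1 * X2 - Y2 * X1 ≠ 0 := by
      intro X1 X2 Y1 Y2 h h'
      apply h
      linarith
    -- two of the three products have the same sign
    have hcase : 0 ≤ A1 * B1 * (A2 * B2) ∨ 0 ≤ A1 * C1 * (A2 * C2) ∨ 0 ≤ B1 * C1 * (B2 * C2) := by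
      rcases le_total 0 (A1 * A2) with ha | ha <;> rcases le_total 0 (B1 * B2) with hb | hb <;>
        rcases le_total 0 (C1 * C2) with hc | hc
      · left; have := mul_nonneg ha hb; linarith
      · left; have := mul_nonneg ha hb; linarith
      · right; left; have := mul_nonneg ha hc; linarith
      · right; right; have := mul_nonneg_of_nonpos_of_nonpos hb hc; linarith
      · right; right; have := mul_nonneg hb hc; linarith
      · right; left; have := mul_nonneg_of_nonpos_of_nonpos ha hc; linarith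
      · left; have := mul_nonneg_of_nonpos_of_nonpos ha hb; linarith
      · left; have := mul_nonneg_of_nonpos_of_nonpos ha hb; linarith
    rcases hcase with h | h | h
    · exact core _ W A1 A2 B1 B2 C1 C2 hr hW h qab qac qbc j1 (cm j2) (cm j4) (cm j6)
    · exact core _ W A1 A2 C1 C2 B1 B2 hr hW h qac qab (ng qbc) j3 (cm j4) (cm j2) (cm j5)
    · exact core _ W B1 B2 C1 C2 A1 A2 hr hW h qbc (ng qab) (ng qac) j5 (cm j6) (cm j1) (cm j3)

end Pool.Agent.H93.SG
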