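import Pool.Agent.H93.SG.Stm

/-! # Project SG, stub COORD (helper44) -/

set_option autoImplicit false

namespace Pool.Agent.H93.SG

open Submodule

theorem coord_sound : S_COORD := by
  intro n Q hs S hpos a ha b hb w hw hli
  have ha0 : a ≠ 0 := hli.ne_zero 0
  have haa := hpos a ha ha0
  set k := Q a b / Q a a with hk
  set b' := b - k • a with hb'
  have hb'S : b' ∈ S := S.sub_mem hb (S.smul_mem _ ha)
  have hb'0 : b' ≠ 0 := by
    intro h
    rw [Fintype.linearIndependent_iff] at hli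
    have h1 := hli ![-k, 1, 0] (by
      rw [Fin.sum_univ_three]
      simp only [Matrix.cons_val_zero, Matrix.cons_val_one, Matrix.cons_val]
      rw [← h, hb']
      module) 1
    simp at h1
  have hbb := hpos b' hb'S hb'0
  have hab : Q a b' = 0 := by
    rw [hb', map_sub, map_smul, smul_eq_mul, hk]
    field_simp
    ring
  have hra : 0 < √(Q a a) := Real.sqrt_pos.2 haa
  have hrb : 0 < √(Q b' b') := Real.sqrt_pos.2 hbb
  have hra2 : √(Q a a) * √(Q a a) = Q a a := Real.mul_self_sqrt haa.le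
  have hrb2 : √(Q b' b') * √(Q b' b') = Q b' b' := Real.mul_self_sqrt hbb.le
  obtain ⟨ra, hra'⟩ : ∃ ra, ra = √(Q a a) := ⟨_, rfl⟩
  obtain ⟨rb, hrb'⟩ : ∃ rb, rb = √(Q b' b') := ⟨_, rfl⟩
  rw [← hra'] at hra hra2
  rw [← hrb'] at hrb hrb2
  set u1 := ra⁻¹ • a with hu1
  set u2 := rb⁻¹ • b' with hu2
  have q11 : Q u1 u1 = 1 := by
    rw [hu1, map_smul, map_smul, LinearMap.smul_apply, smul_eq_mul, smul_eq_mul, ← hra2]
    field_simp
  have q22 : Q u2 u2 = 1 := by
    rw [hu2, map_smul, map_smul, LinearMap.smul_apply, smul_eq_mul, smul_eq_mul, ← hrb2]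
    field_simp
  have q12 : Q u1 u2 = 0 := by
    rw [hu1, hu2, map_smul, map_smul, LinearMap.smul_apply, smul_eq_mul, smul_eq_mul, hab]
    ring
  have q21 : Q u2 u1 = 0 := by rw [hs, q12]
  have hu1S : u1 ∈ S := S.smul_mem _ ha
  have hu2S : u2 ∈ S := S.smul_mem _ hb'S
  have au : a = ra • u1 := by
    rw [hu1, smul_smul, mul_inv_cancel₀ hra.ne', one_smul]
  have bu : b = rb • u2 + (k * ra) • u1 := by
    rw [hu2, smul_smul, mul_inv_cancel₀ hrb.ne', one_smul, ← smul_smul, ← au, hb']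
    module
  have rep : ∀ x ∈ span ℝ {a, b}, x = Q u1 x • u1 + Q u2 x • u2 := by
    intro x hx
    obtain ⟨s, t, rfl⟩ := mem_span_pair.1 hx
    have e1 : s • a + t • b = (s * ra + t * (k * ra)) • u1 + (t * rb) • u2 := by
      rw [bu]
      nth_rewrite 1 [au]
      module
    rw [e1]
    simp only [map_add, map_smul, smul_eq_mul, q11, q12, q21, q22, mul_zero, mul_one, add_zero,
      zero_add]
  refine ⟨Q u1, Q u2, Q w u1, Q w u2, ?_, ?_, ?_, ?_⟩
  · intro x hx y hy
    have e1 := rep x hx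
    have e2 : Q x y = Q (Q u1 x • u1 + Q u2 x • u2) y := by rw [← e1]
    rw [e2]
    simp only [map_add, map_smul, LinearMap.add_apply, LinearMap.smul_apply, smul_eq_mul]
  · intro x hx
    have e1 := rep x hx
    have e2 : Q w x = Q w (Q u1 x • u1 + Q u2 x • u2) := by rw [← e1]
    rw [e2]
    simp only [map_add, map_smul, smul_eq_mul]
    ring
  · have hz0 : w - Q w u1 • u1 - Q w u2 • u2 ≠ 0 := by
      intro h
      rw [Fintype.linearIndependent_iff] at hli
      have e : w - Q w u1 • u1 - Q w u2 • u2 =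
          (-(Q w u1 * ra⁻¹) + Q w u2 * rb⁻¹ * k) • a + (-(Q w u2 * rb⁻¹)) • b + (1 : ℝ) • w := by
        rw [hu1, hu2, hb']
        module
      have h1 := hli ![-(Q w u1 * ra⁻¹) + Q w u2 * rb⁻¹ * k, -(Q w u2 * rb⁻¹), 1] (by
        rw [Fin.sum_univ_three]
        simp only [Matrix.cons_val_zero, Matrix.cons_val_one, Matrix.cons_val]
        rw [← e, h]) 2
      simp at h1
    have hzS : w - Q w u1 • u1 - Q w u2 • u2 ∈ S :=
      S.sub_mem (S.sub_mem hw (S.smul_mem _ hu1S)) (S.smul_mem _ hu2S)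
    have hz := hpos _ hzS hz0
    have e : Q (w - Q w u1 • u1 - Q w u2 • u2) (w - Q w u1 • u1 - Q w u2 • u2) =
        Q w w - Q w u1 ^ 2 - Q w u2 ^ 2 := by
      simp only [map_sub, map_smul, LinearMap.sub_apply, LinearMap.smul_apply, smul_eq_mul, q11,
        q12, q21, q22, hs u1 w, hs u2 w]
      ring
    rw [e] at hz
    linarith
  · intro x hx h1 h2
    rw [rep x hx, h1, h2]
    simp

end Pool.Agent.H93.SG
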