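import Pool.Agent.H93.SG.Stm

/-! # SG-FIN -/

set_option autoImplicit false

namespace Pool.Agent.H93.SG

open Submodule

namespace FINaux

variable {n : ℕ} {B : LinearMap.BilinForm ℝ (Fin n → ℝ)} {S : Submodule ℝ (Fin n → ℝ)}

lemma nonpos (hneg : ∀ x ∈ S, x ≠ 0 → B x x < 0) : ∀ x ∈ S, B x x ≤ 0 := by
  intro x hx
  by_cases h : x = 0
  · subst h
    simp
  · exact (hneg x hx h).le

lemma cs (hsym : ∀ x y, B x y = B y x) (hneg : ∀ x ∈ S, x ≠ 0 → B x x < 0) :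
    ∀ x ∈ S, ∀ e ∈ S, B x e ^ 2 ≤ B x x * B e e := by
  intro x hx e he
  by_cases h0 : e = 0
  · subst h0
    simp
  · have hee := hneg e he h0
    have hy : (B e e) • x - (B x e) • e ∈ S := S.sub_mem (S.smul_mem _ hx) (S.smul_mem _ he)
    have h1 := nonpos hneg _ hy
    have h2 : B ((B e e) • x - (B x e) • e) ((B e e) • x - (B x e) • e) =
        B e e * (B e e * B x x - B x e ^ 2) := by
      simp only [map_sub, map_smul, LinearMap.sub_apply, LinearMap.smul_apply, smul_eq_mul]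
      rw [hsym e x]
      ring
    rw [h2] at h1
    by_contra hcon
    push Not at hcon
    have h3 : 0 < B e e * (B e e * B x x - B x e ^ 2) :=
      mul_pos_of_neg_of_neg hee (by linarith)
    linarith

lemma bound (hsym : ∀ x y, B x y = B y x) (hneg : ∀ x ∈ S, x ≠ 0 → B x x < 0) {C : ℝ}
    {x e : Fin n → ℝ} (hx : x ∈ S) (he : e ∈ S) (hC : -C ≤ B x x) {k : ℤ} (hk : B x e = k) :
    -⌈C * -(B e e)⌉ ≤ k ∧ k ≤ ⌈C * -(B e e)⌉ := by
  have h1 := cs hsym hneg x hx e he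
  have h2 := nonpos hneg e he
  have h3 : B x x * B e e ≤ (-C) * B e e := mul_le_mul_of_nonpos_right hC h2
  rw [hk] at h1
  have h4 : (k : ℝ) ^ 2 ≤ C * -(B e e) := by linarith
  have h5 : ((k ^ 2 : ℤ) : ℝ) ≤ (⌈C * -(B e e)⌉ : ℝ) := by
    push_cast
    exact h4.trans (Int.le_ceil _)
  have h6 : k ^ 2 ≤ ⌈C * -(B e e)⌉ := by exact_mod_cast h5
  have h7 := Int.le_self_sq k
  have h8 := Int.le_self_sq (-k)
  rw [neg_sq] at h8
  constructor <;> omega

end FINaux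

open FINaux in
theorem fin_sound : S_FIN := by
  intro n B hsym e₁ e₂ e₃ hneg C
  have he1 : e₁ ∈ span ℝ {e₁, e₂, e₃} := subset_span (by simp)
  have he2 : e₂ ∈ span ℝ {e₁, e₂, e₃} := subset_span (by simp)
  have he3 : e₃ ∈ span ℝ {e₁, e₂, e₃} := subset_span (by simp)
  refine Set.Finite.subset (Set.Finite.biUnion
    (Set.finite_Icc (-⌈C * -(B e₁ e₁)⌉, -⌈C * -(B e₂ e₂)⌉, -⌈C * -(B e₃ e₃)⌉)
      (⌈C * -(B e₁ e₁)⌉, ⌈C * -(B e₂ e₂)⌉, ⌈C * -(B e₃ e₃)⌉))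
    (t := fun k : ℤ × ℤ × ℤ => {x : Fin n → ℝ | x ∈ span ℝ {e₁, e₂, e₃} ∧ B x e₁ = k.1 ∧
      B x e₂ = k.2.1 ∧ B x e₃ = k.2.2}) ?_) ?_
  · intro k _
    refine Set.Subsingleton.finite ?_
    rintro x ⟨hx, x1, x2, x3⟩ y ⟨hy, y1, y2, y3⟩
    have hd : x - y ∈ span ℝ {e₁, e₂, e₃} := (span ℝ {e₁, e₂, e₃}).sub_mem hx hy
    have h0 : ∀ z ∈ span ℝ {e₁, e₂, e₃}, B (x - y) z = 0 := by
      intro z hz
      refine span_induction ?_ ?_ ?_ ?_ hz
      · intro w hw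
        simp only [Set.mem_insert_iff, Set.mem_singleton_iff] at hw
        rcases hw with rfl | rfl | rfl
        · rw [map_sub, LinearMap.sub_apply, x1, y1, sub_self]
        · rw [map_sub, LinearMap.sub_apply, x2, y2, sub_self]
        · rw [map_sub, LinearMap.sub_apply, x3, y3, sub_self]
      · simp
      · intro u v _ _ hu hv
        rw [map_add, hu, hv, add_zero]
      · intro a u _ hu
        rw [map_smul, hu, smul_zero]
    by_contra hne
    have h1 := hneg _ hd (sub_ne_zero.2 hne)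
    rw [h0 _ hd] at h1
    exact lt_irrefl _ h1
  · rintro x ⟨hx, hC, k₁, k₂, k₃, h1, h2, h3⟩
    simp only [Set.mem_iUnion]
    have b1 := bound hsym hneg hx he1 hC h1
    have b2 := bound hsym hneg hx he2 hC h2
    have b3 := bound hsym hneg hx he3 hC h3
    refine ⟨(k₁, k₂, k₃), ⟨⟨b1.1, b2.1, b3.1⟩, ⟨b1.2, b2.2, b3.2⟩⟩, hx, h1, h2, h3⟩

end Pool.Agent.H93.SG
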