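import Pool.Agent.H93.SG.Stm

/-! # Project SG, stub GRAM (helper44) -/

set_option autoImplicit false

namespace Pool.Agent.H93.SG

open Submodule

theorem gram_sound : S_GRAM := by
  intro n Q hs S hpos
  have h2 : ∀ a ∈ S, ∀ b ∈ S, LinearIndependent ℝ ![a, b] → 0 < g2 Q a b := by
    intro a ha b hb hli
    have ha0 : a ≠ 0 := hli.ne_zero 0
    have haa := hpos a ha ha0
    have hy0 : Q a a • b - Q a b • a ≠ 0 := by
      intro h
      rw [LinearIndependent.pair_iff] at hli
      have := hli (-(Q a b)) (Q a a) (by rw [← h]; module)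
      exact haa.ne' this.2
    have hyS : Q a a • b - Q a b • a ∈ S := S.sub_mem (S.smul_mem _ hb) (S.smul_mem _ ha)
    have hy := hpos _ hyS hy0
    have e : Q (Q a a • b - Q a b • a) (Q a a • b - Q a b • a) = Q a a * g2 Q a b := by
      simp only [map_sub, map_smul, LinearMap.sub_apply, LinearMap.smul_apply, smul_eq_mul, g2,
        hs b a]
      ring
    rw [e] at hy
    exact (mul_pos_iff_of_pos_left haa).1 hy
  refine ⟨h2, ?_, ?_⟩
  · intro a ha b hb w hw hli
    have hli2 : LinearIndependent ℝ ![a, b] := by
      rw [LinearIndependent.pair_iff]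
      intro s t hst
      rw [Fintype.linearIndependent_iff] at hli
      have h := hli ![s, t, 0] (by simp [Fin.sum_univ_three, hst])
      exact ⟨h 0, h 1⟩
    have hg := h2 a ha b hb hli2
    set α := Q a w * Q b b - Q a b * Q b w with hα
    set β := Q a a * Q b w - Q a b * Q a w with hβ
    have hz0 : g2 Q a b • w - α • a - β • b ≠ 0 := by
      intro h
      rw [Fintype.linearIndependent_iff] at hli
      have h' := hli ![-α, -β, g2 Q a b] (by
        rw [Fin.sum_univ_three]
        simp only [Matrix.cons_val_zero, Matrix.cons_val_one, Matrix.cons_val]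
        rw [← h]
        module) 2
      exact hg.ne' h'
    have hzS : g2 Q a b • w - α • a - β • b ∈ S :=
      S.sub_mem (S.sub_mem (S.smul_mem _ hw) (S.smul_mem _ ha)) (S.smul_mem _ hb)
    have hz := hpos _ hzS hz0
    have e : Q (g2 Q a b • w - α • a - β • b) (g2 Q a b • w - α • a - β • b) =
        g2 Q a b * g3 Q a b w := by
      simp only [map_sub, map_smul, LinearMap.sub_apply, LinearMap.smul_apply, smul_eq_mul, g2, g3,
        hs b a, hs w a, hs w b, hα, hβ]
      ring
    rw [e] at hz
    exact (mul_pos_iff_of_pos_left hg).1 hz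
  · intro a b w s t u v
    refine ⟨?_, ?_, ?_⟩
    · simp only [map_add, map_smul, LinearMap.add_apply, LinearMap.smul_apply, smul_eq_mul, g2,
        hs b a]
      ring
    · simp only [map_add, map_smul, LinearMap.add_apply, LinearMap.smul_apply, smul_eq_mul, g3,
        hs b a, hs w a, hs w b]
      ring
    · simp only [g3, hs b a, hs w a, hs w b]
      ring

end Pool.Agent.H93.SG
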