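import Pool.Agent.H93.SG.Stm

set_option autoImplicit false

/-! # SG-KEL: the proof of Kelly -/

namespace Pool.Agent.H93.SG

open Submodule

namespace KELaux

variable {n : ℕ}

theorem li3 {a b w : Fin n → ℝ} : LinearIndependent ℝ ![a, b, w] ↔
    ∀ x y z : ℝ, x • a + y • b + z • w = 0 → x = 0 ∧ y = 0 ∧ z = 0 := by
  rw [Fintype.linearIndependent_iff]
  constructor
  · intro h x y z hxyz
    have h1 := h ![x, y, z] (by
      rw [Fin.sum_univ_three]
      simpa using hxyz)
    exact ⟨h1 0, h1 1, h1 2⟩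
  · intro h g hg i
    rw [Fin.sum_univ_three] at hg
    have h1 := h (g 0) (g 1) (g 2) (by simpa using hg)
    fin_cases i
    · exact h1.1
    · exact h1.2.1
    · exact h1.2.2

theorem li2 {a b : Fin n → ℝ} : LinearIndependent ℝ ![a, b] ↔
    ∀ x y : ℝ, x • a + y • b = 0 → x = 0 ∧ y = 0 := LinearIndependent.pair_iff

end KELaux

open KELaux in
/-- KEL -/
theorem kel_sound : S_KEL := by
  intro hALG hCOORD hGRAM n Q hQ S hS Φ hΦ hΦS hex
  classical
  obtain ⟨hg2, hg3, htr⟩ := hGRAM n Q hQ S hS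
  -- a minimal triple
  set δ : (Fin n → ℝ) × (Fin n → ℝ) × (Fin n → ℝ) → ℝ :=
    fun t => g3 Q t.1 t.2.1 t.2.2 / (g2 Q t.1 t.2.1 * Q t.2.2 t.2.2) with hδ
  set T : Set ((Fin n → ℝ) × (Fin n → ℝ) × (Fin n → ℝ)) :=
    {t | t.1 ∈ Φ ∧ t.2.1 ∈ Φ ∧ t.2.2 ∈ Φ ∧ LinearIndependent ℝ ![t.1, t.2.1, t.2.2]} with hT
  have hTf : T.Finite := (hΦ.prod (hΦ.prod hΦ)).subset (by
    rintro ⟨x, y, z⟩ ⟨h1, h2, h3, _⟩
    exact ⟨h1, h2, h3⟩)
  have hTn : T.Nonempty := by
    obtain ⟨u, hu, v, hv, w, hw, h⟩ := hex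
    exact ⟨(u, v, w), hu, hv, hw, h⟩
  obtain ⟨⟨a, b, w⟩, ⟨ha, hb, hw, hli⟩, hmin⟩ := Set.exists_min_image T δ hTf hTn
  simp only at ha hb hw hli
  have hli' := li3.1 hli
  have hmin' : ∀ x ∈ Φ, ∀ y ∈ Φ, ∀ z ∈ Φ, LinearIndependent ℝ ![x, y, z] →
      g3 Q a b w / (g2 Q a b * Q w w) ≤ g3 Q x y z / (g2 Q x y * Q z z) :=
    fun x hx y hy z hz h => hmin (x, y, z) ⟨hx, hy, hz, h⟩
  have hab : LinearIndependent ℝ ![a, b] := by
    rw [li2]
    intro x y h
    have := hli' x y 0 (by rw [zero_smul, add_zero]; exact h)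
    exact ⟨this.1, this.2.1⟩
  refine ⟨a, ha, b, hb, hab, ?_⟩
  by_contra hcon
  push Not at hcon
  obtain ⟨c, hc, hcs, hca, hcb⟩ := hcon
  obtain ⟨s, t, hst⟩ := mem_span_pair.1 hcs
  have ht0 : t ≠ 0 := by
    rintro rfl
    apply hca
    rw [mem_span_singleton]
    exact ⟨s, by rw [← hst, zero_smul, add_zero]⟩
  have hs0 : s ≠ 0 := by
    rintro rfl
    apply hcb
    rw [mem_span_singleton]
    exact ⟨t, by rw [← hst, zero_smul, zero_add]⟩
  have hw0 : w ≠ 0 := by
    rintro rfl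
    have := (hli' 0 0 1 (by simp)).2.2
    exact one_ne_zero this
  have hww : 0 < Q w w := hS w (hΦS w hw) hw0
  have hgab : 0 < g2 Q a b := hg2 a (hΦS a ha) b (hΦS b hb) hab
  have hgabw : 0 < g3 Q a b w := hg3 a (hΦS a ha) b (hΦS b hb) w (hΦS w hw) hli
  have key : ∀ x ∈ Φ, ∀ y ∈ Φ, ∀ s t u v : ℝ, x = s • a + t • b → y = u • a + v • b →
      s * v - t * u ≠ 0 → Q w w * Q x y ^ 2 ≤ Q x x * Q w y ^ 2 := by
    intro x hx y hy s t u v hxe hye hD
    have hD2 : 0 < (s * v - t * u) ^ 2 := by positivity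
    have hl : ∀ α β γ : ℝ, α • x + β • y + γ • w = 0 → α = 0 ∧ β = 0 ∧ γ = 0 := by
      intro α β γ h
      rw [hxe, hye] at h
      have h1 := hli' (α * s + β * u) (α * t + β * v) γ (by
        rw [← h]
        module)
      obtain ⟨h2, h3, h4⟩ := h1
      have h5 : α * (s * v - t * u) = 0 := by linear_combination v * h2 - u * h3
      have h6 : β * (s * v - t * u) = 0 := by linear_combination s * h3 - t * h2
      exact ⟨(mul_eq_zero.1 h5).resolve_right hD, (mul_eq_zero.1 h6).resolve_right hD, h4⟩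
    have hl2 : LinearIndependent ℝ ![w, y, x] := by
      rw [li3]
      intro α β γ h
      have := hl γ β α (by rw [← h]; module)
      exact ⟨this.2.2, this.2.1, this.1⟩
    have hl3 : LinearIndependent ℝ ![w, y] := by
      rw [li2]
      intro α β h
      have := hl 0 β α (by rw [← h]; module)
      exact ⟨this.2.2, this.2.1⟩
    have hx0 : x ≠ 0 := by
      rintro rfl
      exact one_ne_zero (hl 1 0 0 (by simp)).1
    have hxx : 0 < Q x x := hS x (hΦS x hx) hx0
    have hgwy : 0 < g2 Q w y := hg2 w (hΦS w hw) y (hΦS y hy) hl3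
    have h1 := hmin' w hw y hy x hx hl2
    obtain ⟨t1, t2, _⟩ := htr a b w s t u v
    rw [← hxe, ← hye] at t1 t2
    have t3 : g3 Q x y w = g3 Q w y x := (htr x y w 0 0 0 0).2.2
    rw [← t3, t2, div_le_div_iff₀ (by positivity) (by positivity)] at h1
    have h2 : g2 Q w y * Q x x ≤ g2 Q x y * Q w w := by
      rw [t1]
      have h3 : g3 Q a b w * (g2 Q w y * Q x x) ≤
          g3 Q a b w * ((s * v - t * u) ^ 2 * g2 Q a b * Q w w) := by
        calc g3 Q a b w * (g2 Q w y * Q x x) ≤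
            (s * v - t * u) ^ 2 * g3 Q a b w * (g2 Q a b * Q w w) := h1
          _ = _ := by ring
      exact le_of_mul_le_mul_left h3 hgabw
    unfold g2 at h2
    nlinarith [h2]
  obtain ⟨f, g, p1, p2, hfg, hwfg, hp, hfg0⟩ :=
    hCOORD n Q hQ S hS a (hΦS a ha) b (hΦS b hb) w (hΦS w hw) hli
  have haS : a ∈ span ℝ {a, b} := subset_span (by simp)
  have hbS : b ∈ span ℝ {a, b} := subset_span (by simp)
  have hdet : f a * g b - g a * f b ≠ 0 := by
    intro h
    have hz1 : g b • a - g a • b = 0 := by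
      apply hfg0 _ (sub_mem (smul_mem _ _ haS) (smul_mem _ _ hbS))
      · rw [map_sub, map_smul, map_smul, smul_eq_mul, smul_eq_mul]
        linear_combination h
      · rw [map_sub, map_smul, map_smul, smul_eq_mul, smul_eq_mul]
        ring
    have hz2 : f b • a - f a • b = 0 := by
      apply hfg0 _ (sub_mem (smul_mem _ _ haS) (smul_mem _ _ hbS))
      · rw [map_sub, map_smul, map_smul, smul_eq_mul, smul_eq_mul]
        ring
      · rw [map_sub, map_smul, map_smul, smul_eq_mul, smul_eq_mul]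
        linear_combination -h
    have e1 := (li2.1 hab) (g b) (-g a) (by rw [← hz1]; module)
    have e2 := (li2.1 hab) (f b) (-f a) (by rw [← hz2]; module)
    have ha0 : a = 0 := hfg0 a haS (neg_eq_zero.1 e2.2) (neg_eq_zero.1 e1.2)
    have := (li2.1 hab) 1 0 (by rw [ha0]; simp)
    exact one_ne_zero this.1
  have hfc : f c = s * f a + t * f b := by
    rw [← hst, map_add, map_smul, map_smul, smul_eq_mul, smul_eq_mul]
  have hgc : g c = s * g a + t * g b := by
    rw [← hst, map_add, map_smul, map_smul, smul_eq_mul, smul_eq_mul]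
  have ea : a = (1 : ℝ) • a + (0 : ℝ) • b := by simp
  have eb : b = (0 : ℝ) • a + (1 : ℝ) • b := by simp
  have ec : c = s • a + t • b := hst.symm
  have k1 := key a ha b hb 1 0 0 1 ea eb (by norm_num)
  have k2 := key b hb a ha 0 1 1 0 eb ea (by norm_num)
  have k3 := key a ha c hc 1 0 s t ea ec (by simpa using ht0)
  have k4 := key c hc a ha s t 1 0 ec ea (by simpa using ht0)
  have k5 := key b hb c hc 0 1 s t eb ec (by simpa using hs0)
  have k6 := key c hc b hb s t 0 1 ec eb (by simpa using hs0)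
  rw [hfg a haS b hbS, hfg a haS a haS, hwfg b hbS] at k1
  rw [hfg b hbS a haS, hfg b hbS b hbS, hwfg a haS] at k2
  rw [hfg a haS c hcs, hfg a haS a haS, hwfg c hcs] at k3
  rw [hfg c hcs a haS, hfg c hcs c hcs, hwfg a haS] at k4
  rw [hfg b hbS c hcs, hfg b hbS b hbS, hwfg c hcs] at k5
  rw [hfg c hcs b hbS, hfg c hcs c hcs, hwfg b hbS] at k6
  refine hALG (Q w w) p1 p2 (f a) (g a) (f b) (g b) (f c) (g c) hp hdet ?_ ?_ ?_ ?_ ?_ ?_ ?_ ?_
  · rw [hfc, hgc]
    have : f a * (s * g a + t * g b) - g a * (s * f a + t * f b) = t * (f a * g b - g a * f b) := by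
      ring
    rw [this]
    exact mul_ne_zero ht0 hdet
  · rw [hfc, hgc]
    have : f b * (s * g a + t * g b) - g b * (s * f a + t * f b) = -s * (f a * g b - g a * f b) := by
      ring
    rw [this]
    exact mul_ne_zero (neg_ne_zero.2 hs0) hdet
  · linarith [k1]
  · have e : f b * f a + g b * g a = f a * f b + g a * g b := by ring
    rw [e] at k2
    linarith [k2]
  · linarith [k3]
  · have e : f c * f a + g c * g a = f a * f c + g a * g c := by ring
    rw [e] at k4
    linarith [k4]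
  · linarith [k5]
  · have e : f c * f b + g c * g b = f b * f c + g b * g c := by ring
    rw [e] at k6
    linarith [k6]

end Pool.Agent.H93.SG
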