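import Mathlib

/-!
# PROJECT SG (helper93): a Sylvester-Gallai theorem for finite sets of lines in a Euclidean space
-/

set_option autoImplicit false

namespace Pool.Agent.H93.SG

open Submodule

/-- The Gram determinant of two vectors. -/
def g2 {n : ℕ} (Q : LinearMap.BilinForm ℝ (Fin n → ℝ)) (a b : Fin n → ℝ) : ℝ :=
  Q a a * Q b b - Q a b ^ 2

/-- The Gram determinant of three vectors. -/
def g3 {n : ℕ} (Q : LinearMap.BilinForm ℝ (Fin n → ℝ)) (a b w : Fin n → ℝ) : ℝ :=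
  Q a a * (Q b b * Q w w - Q b w ^ 2) - Q a b * (Q a b * Q w w - Q b w * Q a w) +
    Q a w * (Q a b * Q b w - Q b b * Q a w)

/-- ALG (60 lines).  `a`, `b`, `c` are pairwise non-parallel vectors of the plane, `p` a vector with
`|p|² < W`; the six inequalities say `|x|² ⟨p, y⟩² ≥ W ⟨x, y⟩²`.  Contradiction.

Proof.  If `p = 0`: all `⟨x, y⟩ = 0`, impossible.  Otherwise put `r = |p|²`, `X₁ = ⟨p, x⟩`, `X₂ = p₁ x₂ - p₂ x₁`, so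
`r |x|² = X₁² + X₂²` and `r ⟨x, y⟩ = X₁ Y₁ + X₂ Y₂`, and the inequalities say
`r (X₁² + X₂²) Y₁² ≥ W (X₁ Y₁ + X₂ Y₂)²`.  Two of the three numbers `A₁ A₂`, `B₁ B₂`, `C₁ C₂` are both `≥ 0` or both
`≤ 0`, say those of `a`, `b`; then `A₁ B₁ A₂ B₂ ≥ 0`.  Put `X = A₁ B₁`, `Y = A₂ B₂`, `U = A₂ B₁`, `Z = A₁ B₂`; so
`U Z = X Y ≥ 0`, and `r (X² + U²) ≥ W (X + Y)²`, `r (X² + Z²) ≥ W (X + Y)²`.  As `min (U², Z²) ≤ |U Z| = X Y`,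
`W (X + Y)² ≤ r (X² + X Y) ≤ r (X + Y)²`, so `X + Y = 0` (`r < W`), so `X = Y = 0`.  Since `a`, `b` are not
parallel, one of them, say `b`, has `B₁ = 0` (the other one has `A₂ = 0`).  Then the inequalities for
`(a, b)` and `(c, b)` give `⟨a, b⟩ = ⟨c, b⟩ = 0`, so `a` and `c` are parallel.  Contradiction. -/
def S_ALG : Prop :=
  ∀ W p1 p2 a1 a2 b1 b2 c1 c2 : ℝ, p1 ^ 2 + p2 ^ 2 < W → a1 * b2 - a2 * b1 ≠ 0 →
    a1 * c2 - a2 * c1 ≠ 0 → b1 * c2 - b2 * c1 ≠ 0 →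
    W * (a1 * b1 + a2 * b2) ^ 2 ≤ (a1 ^ 2 + a2 ^ 2) * (p1 * b1 + p2 * b2) ^ 2 →
    W * (a1 * b1 + a2 * b2) ^ 2 ≤ (b1 ^ 2 + b2 ^ 2) * (p1 * a1 + p2 * a2) ^ 2 →
    W * (a1 * c1 + a2 * c2) ^ 2 ≤ (a1 ^ 2 + a2 ^ 2) * (p1 * c1 + p2 * c2) ^ 2 →
    W * (a1 * c1 + a2 * c2) ^ 2 ≤ (c1 ^ 2 + c2 ^ 2) * (p1 * a1 + p2 * a2) ^ 2 →
    W * (b1 * c1 + b2 * c2) ^ 2 ≤ (b1 ^ 2 + b2 ^ 2) * (p1 * c1 + p2 * c2) ^ 2 →
    W * (b1 * c1 + b2 * c2) ^ 2 ≤ (c1 ^ 2 + c2 ^ 2) * (p1 * b1 + p2 * b2) ^ 2 → False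

/-- COORD (70 lines).  Orthonormal coordinates `f`, `g` on the plane of `a`, `b` (Gram-Schmidt), and the
projection `p` of `w` to this plane: take `u₁ = a / √Q(a,a)`, `b' = b - Q(a,b)/Q(a,a) a`,
`u₂ = b' / √Q(b',b')`, `f x = Q u₁ x`, `g x = Q u₂ x`, `p₁ = Q w u₁`, `p₂ = Q w u₂`;
`Q(w - p₁ u₁ - p₂ u₂, ·) > 0` gives `p₁² + p₂² < Q w w`. -/
def S_COORD : Prop :=
  ∀ (n : ℕ) (Q : LinearMap.BilinForm ℝ (Fin n → ℝ)), (∀ x y, Q x y = Q y x) →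
    ∀ S : Submodule ℝ (Fin n → ℝ), (∀ x ∈ S, x ≠ 0 → 0 < Q x x) →
    ∀ a ∈ S, ∀ b ∈ S, ∀ w ∈ S, LinearIndependent ℝ ![a, b, w] →
    ∃ (f g : (Fin n → ℝ) →ₗ[ℝ] ℝ) (p1 p2 : ℝ),
      (∀ x ∈ span ℝ {a, b}, ∀ y ∈ span ℝ {a, b}, Q x y = f x * f y + g x * g y) ∧
      (∀ x ∈ span ℝ {a, b}, Q w x = p1 * f x + p2 * g x) ∧ p1 ^ 2 + p2 ^ 2 < Q w w ∧
      ∀ x ∈ span ℝ {a, b}, f x = 0 → g x = 0 → x = 0

/-- GRAM (60 lines).  Positivity of the Gram determinants: `g2 > 0` by `Q(y, y) > 0` for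
`y = Q(a,a) b - Q(a,b) a`; `g3 > 0` by `g2(a,b) g3(a,b,w) = Q(z, z)` (check with `ring` after expanding) for
`z = g2(a,b) w - α a - β b`, `α = Q(a,w) Q(b,b) - Q(a,b) Q(b,w)`, `β = Q(a,a) Q(b,w) - Q(a,b) Q(a,w)`.
The transformation of the Gram determinants by a linear map of the plane of `a`, `b` (`ring`). -/
def S_GRAM : Prop :=
  ∀ (n : ℕ) (Q : LinearMap.BilinForm ℝ (Fin n → ℝ)), (∀ x y, Q x y = Q y x) →
    ∀ S : Submodule ℝ (Fin n → ℝ), (∀ x ∈ S, x ≠ 0 → 0 < Q x x) →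
    (∀ a ∈ S, ∀ b ∈ S, LinearIndependent ℝ ![a, b] → 0 < g2 Q a b) ∧
    (∀ a ∈ S, ∀ b ∈ S, ∀ w ∈ S, LinearIndependent ℝ ![a, b, w] → 0 < g3 Q a b w) ∧
    ∀ (a b w : Fin n → ℝ) (s t u v : ℝ),
      g2 Q (s • a + t • b) (u • a + v • b) = (s * v - t * u) ^ 2 * g2 Q a b ∧
      g3 Q (s • a + t • b) (u • a + v • b) w = (s * v - t * u) ^ 2 * g3 Q a b w ∧
      g3 Q a b w = g3 Q w b a

/-- KEL (120 lines).  The theorem of Sylvester and Gallai for lines in a Euclidean space, proof of Kelly.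

Proof.  Among all independent triples `(a, b, w)` of elements of `Φ` choose one (finite set) with
`δ = g3 (a, b, w) / (g2 (a, b) Q (w, w))` minimal (`δ` is the square of the sine of the angle between `w` and
the plane of `a`, `b`).  Suppose there is `c ∈ Φ` in the plane of `a`, `b`, in none of the two lines.
For any two independent `x`, `y` among `a`, `b`, `c`: the triple `(x, y, w)` has the same `δ` (GRAM), and the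
triple `(w, y, x)` has a `δ` which is not smaller, so (as `g3` of both is the same positive number)
`g2 (w, y) Q (x, x) ≤ g2 (x, y) Q (w, w)`, that is `Q (w, w) Q (x, y)² ≤ Q (x, x) Q (w, y)²`.  In the
coordinates of COORD these are the inequalities of ALG with `W = Q (w, w)`.  Contradiction. -/
def S_KEL : Prop :=
  S_ALG → S_COORD → S_GRAM →
  ∀ (n : ℕ) (Q : LinearMap.BilinForm ℝ (Fin n → ℝ)), (∀ x y, Q x y = Q y x) →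
    ∀ S : Submodule ℝ (Fin n → ℝ), (∀ x ∈ S, x ≠ 0 → 0 < Q x x) →
    ∀ Φ : Set (Fin n → ℝ), Φ.Finite → (∀ x ∈ Φ, x ∈ S) →
    (∃ u ∈ Φ, ∃ v ∈ Φ, ∃ w ∈ Φ, LinearIndependent ℝ ![u, v, w]) →
    ∃ a ∈ Φ, ∃ b ∈ Φ, LinearIndependent ℝ ![a, b] ∧
      ∀ c ∈ Φ, c ∈ span ℝ {a, b} → c ∈ span ℝ {a} ∨ c ∈ span ℝ {b}

/-- FIN (60 lines).  Finiteness: by the Cauchy-Schwarz inequality `B(x, e)² ≤ B(x, x) B(e, e)` (apply
negativity to `B(e, e) x - B(x, e) e`) the integers `B(x, e_i)` are bounded; they determine `x` (the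
difference of two such `x` is orthogonal to its own span). -/
def S_FIN : Prop :=
  ∀ (n : ℕ) (B : LinearMap.BilinForm ℝ (Fin n → ℝ)), (∀ x y, B x y = B y x) →
    ∀ e₁ e₂ e₃ : Fin n → ℝ, (∀ x ∈ span ℝ {e₁, e₂, e₃}, x ≠ 0 → B x x < 0) → ∀ C : ℝ,
    {x : Fin n → ℝ | x ∈ span ℝ {e₁, e₂, e₃} ∧ -C ≤ B x x ∧
      ∃ k₁ k₂ k₃ : ℤ, B x e₁ = k₁ ∧ B x e₂ = k₂ ∧ B x e₃ = k₃}.Finite

end Pool.Agent.H93.SG
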